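import Pool.Agent.Lib.MP_02f36d_nt.T17.Fin

set_option autoImplicit false

namespace Pool.Agent.Results.MP_02f36d_nt.CubicTwists

open Filter NumberField Pool.Agent.T17

theorem result (A : ℝ → Set (IntermediateField ℚ ℝ)) (B : ℤ → ℝ → Set (IntermediateField ℚ ℝ))
    (hA : ∀ X, A X = {L : IntermediateField ℚ ℝ | ∃ _ : NumberField L,
      Module.finrank ℚ L = 3 ∧ discr L < 0 ∧ -X ≤ discr L})
    (hB : ∀ d X, B d X = {L : IntermediateField ℚ ℝ | ∃ _ : NumberField L,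
      Module.finrank ℚ L = 3 ∧ discr L < 0 ∧ -X ≤ discr L ∧ Squarefree (discr L) ∧
        Inert L (17 * d) ∧ Odd (classNumber L)}) :
    Module.finrank ℤ (Ed 1 ℚ).toAffine.Point = 0 ∧
    ∀ d : ℤ, Squarefree d → d % 4 = 1 → d.natAbs.Coprime 51 →
      (∀ (L : Type) [Field L] [NumberField L] [DecidableEq L], Module.finrank ℚ L = 3 →
        discr L < 0 → Squarefree (discr L) → Inert L (17 * d) → Odd (classNumber L) →
        Module.finrank ℤ (Ed d L).toAffine.Point = Module.finrank ℤ (Ed d ℚ).toAffine.Point + 1 ∧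
        HasRoot (Ed d ℚ) (jacobiSym d 17 * jacobiSym (-1) d.natAbs) ∧
        HasRoot (Ed d L) (-(jacobiSym d 17 * jacobiSym (-1) d.natAbs))) ∧
      ∃ c : ℝ, 0 < c ∧ ∀ᶠ X : ℝ in atTop,
        (A X).Finite ∧ c * X ≤ (B d X).ncard ∧ c * (A X).ncard ≤ (B d X).ncard :=
  ⟨Fin.rank_one, fun d d1 d2 d3 => ⟨fun L _ _ _ h1 h2 h3 h4 h5 =>
    ⟨Fin.rk ⟨d1, d2, d3⟩ L h1 h2 h3 h4 h5, Fin.rootQ ⟨d1, d2, d3⟩,
      Fin.rootL ⟨d1, d2, d3⟩ L h1 h2 h4⟩,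
    Fin.dens (mul_ne_zero (by norm_num) d1.ne_zero) A (B d) hA (hB d)⟩⟩

end Pool.Agent.Results.MP_02f36d_nt.CubicTwists
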