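import Pool.Agent.Lib.MP_d6ddbd_nt.KI.All
import Pool.Agent.Lib.MP_02f36d_nt.X11.Full

set_option autoImplicit false

namespace Pool.Agent.Results.MP_02f36d_nt.SmallSelmer

open Pool.Agent.Lib.MP_02f36d_nt.TW Pool.Agent.Lib.MP_02f36d_nt.X11

theorem result (d : ℤ) (hs : Squarefree d) (h4 : d % 4 = 1) (hc : d.natAbs.Coprime 33)
    (E : WeierstrassCurve ℚ) (hE : E = ⟨0, -4 * d, 0, -160 * d ^ 2, -1264 * d ^ 3⟩)
    (k : ℕ) (hk : (Sel E (2 ^ k)).encard < 4 ^ k) :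
    Module.Finite ℤ E.toAffine.Point ∧ Module.finrank ℤ E.toAffine.Point ≤ 1 ∧
      HasRootNumber E ((-1) ^ Module.finrank ℤ E.toAffine.Point) := by
  have n : ∀ q : ℕ, q ∣ 33 → (q : ℤ) ∣ d → q = 1 := fun q h k =>
    Nat.eq_one_of_dvd_coprimes hc (Int.natCast_dvd.1 k) h
  subst hE
  exact full Pool.Agent.Lib.MP_d6ddbd_nt.KI.mainAll hs h4
    (fun k => absurd (n 3 (by norm_num) k) (by norm_num))
    (fun k => absurd (n 11 (by norm_num) k) (by norm_num)) hk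

end Pool.Agent.Results.MP_02f36d_nt.SmallSelmer
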