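import Pool.Agent.Lib.MP_02f36d_nt.NP.Main
import Pool.Agent.Lib.MP_d6ddbd_nt.KA.All

set_option autoImplicit false

namespace Pool.Agent.Results.MP_02f36d_nt.TwoNilpotent

open Filter Topology NumberField IsDedekindDomain

/-- The parity statement for a semistable curve: `E(K)` is finitely generated, there is no prime
of additive reduction, and `rank + m + u` is even, `m` the number of primes of split
multiplicative reduction and `u` the number of infinite places. -/
def Parity {K : Type} [Field K] [NumberField K] [DecidableEq K] (E : WeierstrassCurve K) : Prop :=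
  Module.Finite ℤ E.toAffine.Point ∧
  (∀ v : HeightOneSpectrum (𝓞 K),
    ¬ (E.minimal (v.valuation K).valuationSubring).HasAdditiveReduction
      (v.valuation K).valuationSubring) ∧
  Even (Module.finrank ℤ E.toAffine.Point + {v : HeightOneSpectrum (𝓞 K) |
    (E.minimal (v.valuation K).valuationSubring).HasSplitMultiplicativeReduction
      (v.valuation K).valuationSubring}.ncard + Fintype.card (InfinitePlace K))

theorem result : ∃ Z : Set ℤ,
    Tendsto (fun X : ℕ => ({d ∈ Z | |d| ≤ X}.ncard : ℝ) / X) atTop (𝓝 0) ∧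
    (∀ d ∈ Z, d % 4 = 1 → ¬ 11 ∣ d → 2 ≤ ∑ l ∈ d.natAbs.primeFactors,
      Nat.card {x : ZMod l // x ^ 3 - 4 * x ^ 2 - 160 * x - 1264 = 0}) ∧
    ∀ (E : WeierstrassCurve ℚ), E = ⟨0, -1, 1, -10, -20⟩ →
    ∀ (M K : Type) [Field M] [NumberField M] [DecidableEq M] [IsGalois ℚ M]
      [Field K] [NumberField K] [DecidableEq K] [Algebra M K]
      (G : Type) [Group G] [MulSemiringAction G K] (N : Subgroup G) [N.Normal],
      Odd (Nat.card N) → IsPGroup 2 (G ⧸ N) → (∀ τ : M ≃ₐ[ℚ] M, τ ^ 2 = 1) →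
      (∀ x : K, (∀ σ : G, σ • σ • x = x) → x ∈ Set.range (algebraMap M K)) →
      (∀ d : ℤ, Squarefree d → d ≠ 1 → IsSquare (d : M) → d ∉ Z) →
      Parity (E.baseChange K) ∧
      Module.finrank ℤ (E.baseChange M).toAffine.Point < Module.finrank ℚ M := by
  obtain ⟨Z, h1, h2, h3⟩ :=
    Pool.Agent.Lib.MP_02f36d_nt.NP.final Pool.Agent.Lib.MP_d6ddbd_nt.KA.mainAll
  refine ⟨Z, h1, h2, fun E hE M K _ _ _ _ _ _ _ _ G _ _ N _ a b c d e => ?_⟩
  have k : ∀ (F : Type) [Field F] [NumberField F],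
      E.baseChange F = Pool.Agent.Lib.MP_02f36d_nt.QF.EK F := fun F _ _ => by
    subst hE
    ext <;> simp [Pool.Agent.Lib.MP_02f36d_nt.QF.EK, WeierstrassCurve.baseChange]
  rw [k K, k M]
  let f := MulSemiringAction.toAlgAut G ℚ K
  have := Subgroup.Normal.map ‹_› _ f.rangeRestrict_surjective
  obtain ⟨p, q, r⟩ := h3 M K f.range (N.map f.rangeRestrict)
    (a.of_dvd_nat (N.card_map_dvd _)) (fun g => by
      obtain ⟨g, rfl⟩ := QuotientGroup.mk_surjective g
      obtain ⟨g, rfl⟩ := f.rangeRestrict_surjective g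
      obtain ⟨j, hj⟩ := b (QuotientGroup.mk g)
      refine ⟨j, ?_⟩
      rw [← QuotientGroup.mk_pow, QuotientGroup.eq_one_iff] at hj ⊢
      exact ⟨_, hj, map_pow _ _ _⟩) c (fun x hx => d x fun σ => hx _ ⟨σ, rfl⟩) e
  exact ⟨⟨p, r⟩, q⟩

end Pool.Agent.Results.MP_02f36d_nt.TwoNilpotent
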